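import Mathlib

set_option autoImplicit false

open Set Cardinal

namespace Pool.Agent.Results.MP_0c777d_lc.LaverBoards

/-- `D(L, K)`: every `K`-board Gale-Stewart game with moves in `L` is determined. -/
def Det (L K : Type) : Prop :=
  ∀ A : Set (ℕ → L),
    (∃ σ : List (K → L) → (K → L), ∀ f : ℕ → K → L,
        (∀ n : ℕ, f (2 * n) = σ (List.ofFn (fun i : Fin (2 * n) => f i.val))) →
        ∃ α : K, (fun n => f n α) ∈ A) ∨
    (∃ τ : List (K → L) → (K → L), ∀ f : ℕ → K → L,
        (∀ n : ℕ, f (2 * n + 1) = τ (List.ofFn (fun i : Fin (2 * n + 1) => f i.val))) →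
        ∀ α : K, (fun n => f n α) ∉ A)

/-- A Laver ideal on `K`: a proper `ℵ₂`-complete ideal `I` containing the singletons, with a
family `D` of `I`-positive sets that is dense among the positive sets and countably closed
(both modulo `I`). -/
structure LaverIdeal (K : Type) (I D : Set (Set K)) : Prop where
  down : ∀ X ∈ I, ∀ Y, Y ⊆ X → Y ∈ I
  union : ∀ S : Set (Set K), S ⊆ I → #S < ℵ_ 2 → ⋃₀ S ∈ I
  single : ∀ a : K, {a} ∈ I
  proper : (univ : Set K) ∉ I
  pos : ∀ d ∈ D, d ∉ I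
  dense : ∀ X, X ∉ I → ∃ d ∈ D, d \ X ∈ I
  closed : ∀ d : ℕ → Set K, (∀ n, d n ∈ D) → (∀ n, d (n + 1) \ d n ∈ I) →
    ∃ C, C ∉ I ∧ ∀ n, C \ d n ∈ I

section
variable {K : Type} {I D : Set (Set K)}

lemma lt2 {c : Cardinal.{0}} (h : c ≤ ℵ_ 1) : c < ℵ_ 2 :=
  h.trans_lt (Cardinal.aleph_lt_aleph.2 (by norm_num))

lemma iUnion_mem (h : LaverIdeal K I D) {ι : Type} (hι : #ι ≤ ℵ_ 1) (X : ι → Set K)
    (hX : ∀ i, X i ∈ I) : ⋃ i, X i ∈ I := by
  rw [← sUnion_range]
  exact h.union _ (by rintro _ ⟨i, rfl⟩; exact hX i) (lt2 (Cardinal.mk_range_le.trans hι))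

lemma nat_le : #ℕ ≤ ℵ_ 1 := by
  rw [Cardinal.mk_nat]; exact Cardinal.aleph0_le_aleph 1

lemma union_mem (h : LaverIdeal K I D) {X Y : Set K} (hX : X ∈ I) (hY : Y ∈ I) : X ∪ Y ∈ I := by
  have := iUnion_mem h nat_le (fun n : ℕ => if n = 0 then X else Y)
    (fun n => by split_ifs <;> assumption)
  refine h.down _ this _ ?_
  rintro a (ha | ha)
  · exact mem_iUnion.2 ⟨0, by simpa using ha⟩
  · exact mem_iUnion.2 ⟨1, by simpa using ha⟩

open Classical in
/-- A chosen member of `D` almost inside `X`. -/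
noncomputable def dd (I D : Set (Set K)) (X : Set K) : Set K :=
  if hx : ∃ d ∈ D, d \ X ∈ I then hx.choose else ∅

lemma dd_spec (h : LaverIdeal K I D) {X : Set K} (hX : X ∉ I) :
    dd I D X ∈ D ∧ dd I D X \ X ∈ I := by
  have hx := h.dense X hX
  unfold dd
  rw [dif_pos hx]
  exact hx.choose_spec

lemma core_pos (h : LaverIdeal K I D) {X : Set K} (hX : X ∉ I) : dd I D X ∩ X ∉ I := by
  intro h'
  obtain ⟨h1, h2⟩ := dd_spec h hX
  apply h.pos _ h1
  have := union_mem h h' h2
  rwa [inter_union_diff] at this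

lemma branch (h : LaverIdeal K I D) (X : ℕ → Set K) (hX : ∀ n, X n ∉ I)
    (hs : ∀ n, X (n + 1) ⊆ dd I D (X n) ∩ X n) : (⋂ n, X n) ∉ I := by
  obtain ⟨C, hC, hCd⟩ := h.closed (fun n => dd I D (X n)) (fun n => (dd_spec h (hX n)).1)
    (fun n => h.down _ (dd_spec h (hX (n + 1))).2 _
      (fun a ha => ⟨ha.1, fun h' => ha.2 (hs n h').1⟩))
  intro h'
  apply hC
  have h1 : ∀ n, C \ X n ∈ I := fun n =>
    h.down _ (union_mem h (hCd n) (dd_spec h (hX n)).2) _ (fun a ha => by
      by_cases h2 : a ∈ dd I D (X n)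
      · exact Or.inr ⟨h2, ha.2⟩
      · exact Or.inl ⟨ha.1, h2⟩)
  refine h.down _ (union_mem h h' (iUnion_mem h nat_le _ h1)) _ fun a ha => ?_
  by_cases h2 : a ∈ ⋂ n, X n
  · exact Or.inl h2
  · rw [mem_iInter, not_forall] at h2
    obtain ⟨n, hn⟩ := h2
    exact Or.inr (mem_iUnion.2 ⟨n, ha, hn⟩)

lemma split2 (h : LaverIdeal K I D) (hK : #K ≤ 2 ^ (ℵ_ 1 : Cardinal.{0})) {X : Set K}
    (hX : X ∉ I) : ∃ Y : Set K, X ∩ Y ∉ I ∧ X \ Y ∉ I := by
  classical
  by_contra hc
  push Not at hc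
  let J := (ℵ_ 1 : Cardinal.{0}).out
  have hJ : #J = ℵ_ 1 := Cardinal.mk_out _
  have : #K ≤ #(Set J) := by rw [Cardinal.mk_set, hJ]; exact hK
  obtain ⟨e⟩ := this
  have h1 : ∀ j : J, ∃ b : Prop, X ∩ {a | ¬ (j ∈ e a ↔ b)} ∈ I := by
    intro j
    by_cases h2 : X ∩ {a | j ∈ e a} ∈ I
    · exact ⟨False, by simpa using h2⟩
    · exact ⟨True, by simpa [diff_eq, compl_setOf] using hc _ h2⟩
  choose b hb using h1
  have h3 := iUnion_mem h hJ.le _ hb
  apply hX
  by_cases h4 : ∃ a, e a = {j | b j}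
  · obtain ⟨a, ha⟩ := h4
    refine h.down _ (union_mem h h3 (h.single a)) _ fun x hx => ?_
    by_cases h5 : ∀ j, j ∈ e x ↔ b j
    · right
      have : e x = e a := by rw [ha]; ext j; exact h5 j
      exact e.injective this
    · left
      push Not at h5
      obtain ⟨j, hj⟩ := h5
      exact mem_iUnion.2 ⟨j, hx, by simp only [mem_setOf_eq]; tauto⟩
  · refine h.down _ h3 _ fun x hx => ?_
    by_cases h5 : ∀ j, j ∈ e x ↔ b j
    · exact absurd ⟨x, by ext j; exact h5 j⟩ h4
    · push Not at h5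
      obtain ⟨j, hj⟩ := h5
      exact mem_iUnion.2 ⟨j, hx, by simp only [mem_setOf_eq]; tauto⟩

lemma splitL (h : LaverIdeal K I D) (hK : #K ≤ 2 ^ (ℵ_ 1 : Cardinal.{0})) {L : Type}
    (hL : #L ≤ ℵ_ 1) (X : Set K) : ∃ P : L → Set K, X ∉ I →
      (∀ i, P i ∉ I) ∧ (∀ i, P i ⊆ X) ∧ ∀ i j a, a ∈ P i → a ∈ P j → i = j := by
  classical
  by_cases hX : X ∈ I
  · exact ⟨fun _ => ∅, fun h' => absurd hX h'⟩
  have h1 : ∀ Z : Set K, ∃ Y : Set K, Z ∉ I → Z ∩ Y ∉ I ∧ Z \ Y ∉ I := by
    intro Z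
    by_cases hZ : Z ∈ I
    · exact ⟨∅, fun h' => absurd hZ h'⟩
    · obtain ⟨Y, hY⟩ := split2 h hK hZ
      exact ⟨Y, fun _ => hY⟩
  choose Y hY using h1
  let T : (ℕ → Bool) → ℕ → Set K := fun b n => Nat.rec X (fun k Z =>
    if b k then (dd I D Z ∩ Z) ∩ Y (dd I D Z ∩ Z) else (dd I D Z ∩ Z) \ Y (dd I D Z ∩ Z)) n
  have hT : ∀ b k, T b (k + 1) = if b k then (dd I D (T b k) ∩ T b k) ∩ Y (dd I D (T b k) ∩ T b k)
      else (dd I D (T b k) ∩ T b k) \ Y (dd I D (T b k) ∩ T b k) := fun _ _ => rfl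
  have hpos : ∀ b n, T b n ∉ I := by
    intro b n
    induction n with
    | zero => exact hX
    | succ k ih =>
      rw [hT]
      split_ifs
      · exact (hY _ (core_pos h ih)).1
      · exact (hY _ (core_pos h ih)).2
  have hsub : ∀ b n, T b (n + 1) ⊆ dd I D (T b n) ∩ T b n := by
    intro b n
    rw [hT]
    split_ifs
    · exact inter_subset_left
    · exact diff_subset
  have hle : #L ≤ #(ℕ → Bool) := by
    refine hL.trans ?_
    simp only [Cardinal.mk_pi, Cardinal.mk_fintype, Fintype.card_bool, Nat.cast_ofNat,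
      Cardinal.prod_const, Cardinal.lift_id, Cardinal.mk_nat, Cardinal.two_power_aleph0]
    exact Cardinal.aleph_one_le_continuum
  obtain ⟨e⟩ := hle
  refine ⟨fun i => ⋂ n, T (e i) n, fun _ => ⟨fun i => branch h _ (hpos _) (hsub _),
    fun i a ha => mem_iInter.1 ha 0, fun i j a hi hj => ?_⟩⟩
  apply e.injective
  have key : ∀ n, T (e i) n = T (e j) n ∧ e i n = e j n := by
    have step : ∀ n, T (e i) n = T (e j) n → e i n = e j n := by
      intro n hn
      have h1 := mem_iInter.1 hi (n + 1)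
      have h2 := mem_iInter.1 hj (n + 1)
      rw [hT] at h1 h2
      rw [hn] at h1
      cases h3 : e i n <;> cases h4 : e j n <;> simp only [h3, h4] at h1 h2
      · rfl
      · exact absurd h2.2 h1.2
      · exact absurd h1.2 h2.2
      · rfl
    intro n
    induction n with
    | zero => exact ⟨rfl, step 0 rfl⟩
    | succ k ih =>
      have : T (e i) (k + 1) = T (e j) (k + 1) := by rw [hT, hT, ih.1, ih.2]
      exact ⟨this, step _ this⟩
  funext n
  exact (key n).2

/-- The reversed list of the first `n` values. -/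
def rev {L : Type} (x : ℕ → L) : ℕ → List L
  | 0 => []
  | n + 1 => x n :: rev x n

lemma rev_len {L : Type} (x : ℕ → L) (n : ℕ) : (rev x n).length = n := by
  induction n with
  | zero => rfl
  | succ k ih => simp [rev, ih]

lemma rev_congr {L : Type} (x y : ℕ → L) (n : ℕ) (h : ∀ k < n, x k = y k) : rev x n = rev y n := by
  induction n with
  | zero => rfl
  | succ k ih => rw [rev, rev, h k (by omega), ih (fun j hj => h j (by omega))]

/-- The sets kept by ONE. -/
def BB {L : Type} (nx : Set K → L → (K → L) → Set K) (g : ℕ → K → L) : List L → Set K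
  | [] => univ
  | i :: s => nx (BB nx g s) i (g s.length)

lemma BB_congr {L : Type} (nx : Set K → L → (K → L) → Set K) (g g' : ℕ → K → L) (s : List L)
    (h : ∀ k < s.length, g k = g' k) : BB nx g s = BB nx g' s := by
  induction s with
  | nil => rfl
  | cons i s ih =>
    rw [BB, BB, ih (fun k hk => h k (by simp; omega)), h s.length (by simp)]

lemma getD_ofFn {α : Type} (f : ℕ → α) (m k : ℕ) (hk : k < m) (d : α) :
    (List.ofFn (fun i : Fin m => f i.val)).getD k d = f k := by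
  rw [List.getD_eq_getElem _ _ (by simpa using hk)]
  simp

theorem det (h : LaverIdeal K I D) (hK : #K ≤ 2 ^ (ℵ_ 1 : Cardinal.{0})) {L : Type} [Inhabited L]
    (hL : #L ≤ ℵ_ 1) : Det L K := by
  classical
  intro A
  by_cases hw : ∃ t : List L → L, ∀ x : ℕ → L,
      (fun n => if n % 2 = 0 then x (n / 2) else t (rev x (n / 2 + 1))) ∉ A
  · right
    obtain ⟨t, ht⟩ := hw
    refine ⟨fun l α => t (rev (fun k => l.getD (2 * k) default α) ((l.length + 1) / 2)),
      fun f hf α hA => ht (fun k => f (2 * k) α) ?_⟩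
    convert hA using 2 with n
    split_ifs with hn
    · congr 1; omega
    · have h1 : n = 2 * (n / 2) + 1 := by omega
      conv_rhs => rw [h1, hf]
      simp only [List.length_ofFn]
      have h2 : (2 * (n / 2) + 1 + 1) / 2 = n / 2 + 1 := by omega
      rw [h2]
      congr 1
      apply rev_congr
      intro k hk
      rw [getD_ofFn f _ _ (by omega)]
  left
  push Not at hw
  choose P hP using splitL h hK hL
  have hcol : ∀ (Z : Set K) (g : K → L), ∃ c : L, Z ∉ I → Z ∩ g ⁻¹' {c} ∉ I := by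
    intro Z g
    by_contra hc
    push Not at hc
    apply (hc default).1
    refine h.down _ (iUnion_mem h hL _ fun c => (hc c).2) _ fun a ha => ?_
    exact mem_iUnion.2 ⟨g a, ha, rfl⟩
  choose col hcol using hcol
  let Q : Set K → L → Set K := fun X i => P (dd I D X ∩ X) i
  let nx : Set K → L → (K → L) → Set K := fun X i g => Q X i ∩ g ⁻¹' {col (Q X i) g}
  have hpos : ∀ g s, BB nx g s ∉ I := by
    intro g s
    induction s with
    | nil => exact h.proper
    | cons i s ih => exact hcol _ _ ((hP _ (core_pos h ih)).1 i)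
  have hQsub : ∀ g s i, Q (BB nx g s) i ⊆ dd I D (BB nx g s) ∩ BB nx g s :=
    fun g s i => (hP _ (core_pos h (hpos g s))).2.1 i
  have huniq : ∀ g (s s' : List L) a, s.length = s'.length → a ∈ BB nx g s → a ∈ BB nx g s' →
      s = s' := by
    intro g s
    induction s with
    | nil => intro s' a hl _ _; exact (List.length_eq_zero_iff.1 hl.symm).symm
    | cons i s ih =>
      intro s' a hl h1 h2
      cases s' with
      | nil => simp at hl
      | cons j s' =>
        have h3 : s = s' := ih s' a (by simpa using hl) (hQsub g s i h1.1).2 (hQsub g s' j h2.1).2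
        subst h3
        rw [(hP _ (core_pos h (hpos g s))).2.2 i j a h1.1 h2.1]
  let mv : (ℕ → K → L) → ℕ → K → L := fun g n a =>
    if hx : ∃ i, ∃ s : List L, s.length = n ∧ a ∈ Q (BB nx g s) i then hx.choose else default
  have hmv : ∀ g (s : List L) i a, a ∈ Q (BB nx g s) i → mv g s.length a = i := by
    intro g s i a ha
    have hx : ∃ i, ∃ s' : List L, s'.length = s.length ∧ a ∈ Q (BB nx g s') i := ⟨i, s, rfl, ha⟩
    simp only [mv]
    rw [dif_pos hx]
    obtain ⟨s', hl, hs'⟩ := hx.choose_spec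
    have h3 : s' = s := huniq g s' s a hl (hQsub g _ _ hs').2 (hQsub g _ _ ha).2
    subst h3
    exact (hP _ (core_pos h (hpos g s'))).2.2 _ _ a hs' ha
  refine ⟨fun l => mv (fun k => l.getD (2 * k + 1) default) (l.length / 2), fun f hf => ?_⟩
  let g : ℕ → K → L := fun k => f (2 * k + 1)
  let t : List L → L := fun l => match l with
    | [] => default
    | i :: s => col (Q (BB nx g s) i) (g s.length)
  obtain ⟨x, hx⟩ := hw t
  have hb := branch h (fun n => BB nx g (rev x n)) (fun n => hpos _ _)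
    (fun n a ha => hQsub g _ _ ha.1)
  have hne : (⋂ n, BB nx g (rev x n)).Nonempty := by
    by_contra h0
    rw [not_nonempty_iff_eq_empty] at h0
    rw [h0] at hb
    by_cases hK0 : Nonempty K
    · obtain ⟨a⟩ := hK0
      exact hb (h.down _ (h.single a) _ (empty_subset _))
    · have := h.union ∅ (empty_subset _) (lt2 (by simp))
      exact hb (by simpa using this)
  obtain ⟨a, ha⟩ := hne
  refine ⟨a, ?_⟩
  convert hx using 2 with n
  have hmem := mem_iInter.1 ha (n / 2 + 1)
  split_ifs with hn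
  · have h1 : n = 2 * (n / 2) := by omega
    conv_lhs => rw [h1, hf]
    simp only [List.length_ofFn]
    have h2 : 2 * (n / 2) / 2 = (rev x (n / 2)).length := by rw [rev_len]; omega
    rw [h2]
    apply hmv
    rw [BB_congr nx _ g]
    · exact hmem.1
    · intro k hk
      rw [rev_len] at hk
      exact getD_ofFn f _ _ (by omega) _
  · have h1 : n = 2 * (n / 2) + 1 := by omega
    have h2 := hmem.2
    simp only [mem_preimage, mem_singleton_iff] at h2
    change _ = col (Q (BB nx g (rev x (n / 2))) (x (n / 2))) (g (rev x (n / 2)).length)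
    rw [← h2, rev_len]
    conv_lhs => rw [h1]

end

theorem result (K : Type) (hK : #K = ℵ_ 2) (I D : Set (Set K)) (h : LaverIdeal K I D) :
    (∀ L : Type, #L = ℵ_ 1 → Det L K ∧ #K ≤ 2 ^ #L) ∧
    ¬ (∀ L K : Type, 2 ≤ #L → 1 ≤ #K → Det L K → 2 ^ #L < #K ∧ ℵ₀ ≤ #K) := by
  have h2 : #K ≤ 2 ^ (ℵ_ 1 : Cardinal.{0}) := by
    rw [hK]
    have : (ℵ_ 2 : Cardinal.{0}) = Order.succ (ℵ_ 1) := by
      rw [← Cardinal.aleph_succ]; congr 1
      rw [Order.succ_eq_add_one]; norm_num
    rw [this]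
    exact Order.succ_le_of_lt (Cardinal.cantor _)
  have main : ∀ L : Type, #L = ℵ_ 1 → Det L K ∧ #K ≤ 2 ^ #L := by
    intro L hL
    have : Nonempty L := Cardinal.mk_ne_zero_iff.1 (by rw [hL]; exact (Cardinal.aleph_pos 1).ne')
    haveI : Inhabited L := Classical.inhabited_of_nonempty this
    exact ⟨det h h2 hL.le, by rw [hL]; exact h2⟩
  refine ⟨main, fun H => ?_⟩
  have hL : #((ℵ_ 1 : Cardinal.{0}).out) = ℵ_ 1 := Cardinal.mk_out _
  obtain ⟨h3, h4⟩ := main _ hL
  have h5 := H _ K (by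
      rw [hL]; exact (Cardinal.natCast_lt_aleph0 (n := 2)).le.trans (Cardinal.aleph0_le_aleph 1))
    (by rw [hK]; exact Cardinal.one_lt_aleph0.le.trans (Cardinal.aleph0_le_aleph 2)) h3
  exact absurd h5.1 (not_lt.2 h4)

end Pool.Agent.Results.MP_0c777d_lc.LaverBoards
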